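import Mathlib
import Pool.Agent.T6.H38.CoUniv

/-!
# MP_ceb5ee_gt, Q2: a coanalytic null-finite set without a Borel null-finite hull

In the Polish group `ℤ^ℕ` there is a coanalytic null-finite set `A` such that no Borel set `B ⊇ A`
is null-finite.

The proof is a diagonal construction. An element `w` of the Baire space codes a sequence `s n` of
elements of `ℤ^ℕ` and a sequence of codes of coanalytic sets `G n` of the Baire space. To `w` we
attach an element `base w` of `ℤ^ℕ` which grows so fast that `w` can be recovered from all but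
finitely many coordinates of `base w + s n`, for each `n`. If `w ∈ G n` for some `n`, then one such
`n` is selected, in a coanalytic way (comparison of ranks of well-founded trees), and
`base w + s n` is put into `A`. If `B` is a Borel set which contains `A` and each `x + s n` is
outside of `B` for large `n`, then the choice `G n = {w : base w + s m ∉ B for all m ≥ n}` leads to
a contradiction.
-/

set_option autoImplicit false

open Set Filter Topology MeasureTheory

namespace Pool.Agent.Results.MP_ceb5ee_gt.CoanalyticHull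

open Pool.Agent.T6.H38.CoA

/-- A set is null-finite if there is a sequence `s n → 0` such that for each `x` only finitely many
`n` satisfy `x + s n ∈ A`. -/
def NullFinite {X : Type*} [AddCommGroup X] [TopologicalSpace X] (A : Set X) : Prop :=
  ∃ s : ℕ → X, Tendsto s atTop (𝓝 0) ∧ ∀ x : X, {n | x + s n ∈ A}.Finite

/-! ### The base points -/

/-- A bound for the `i`-th coordinates of the first elements coded by `w`. -/
def bd (w : ℕ → ℕ) (i : ℕ) : ℕ := ∑ n ∈ Finset.range (i + 1), (sq w n i).natAbs

/-- A number which codes the first values of `w` and the bound. -/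
def cod (w : ℕ → ℕ) (i : ℕ) : ℕ := Nat.pair (Encodable.encode (pre w (i + 1))) (bd w i)

/-- The base point attached to `w`. -/
def base (w : ℕ → ℕ) : ℕ → ℤ := fun i => ((cod w i : ℤ) + 1) ^ 2

theorem abs_sq_le (w : ℕ → ℕ) {n i : ℕ} (h : n ≤ i) : |sq w n i| ≤ (cod w i : ℤ) := by
  have h1 : (sq w n i).natAbs ≤ bd w i := by
    unfold bd
    exact Finset.single_le_sum (f := fun n => (sq w n i).natAbs) (fun _ _ => Nat.zero_le _)
      (Finset.mem_range.2 (Nat.lt_succ_of_le h))
  have h2 : bd w i ≤ cod w i := Nat.right_le_pair _ _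
  rw [Int.abs_eq_natAbs]
  exact_mod_cast h1.trans h2

/-- Decoding of integers. -/
noncomputable def dq (v : ℤ) : ℕ := by
  classical
  exact if h : ∃ q : ℕ, |v - ((q : ℤ) + 1) ^ 2| ≤ (q : ℤ) then h.choose else 0

theorem dq_unique {v : ℤ} {q r : ℕ} (hq : |v - ((q : ℤ) + 1) ^ 2| ≤ (q : ℤ))
    (hr : |v - ((r : ℤ) + 1) ^ 2| ≤ (r : ℤ)) : q = r := by
  rw [abs_le] at hq hr
  rcases lt_trichotomy q r with h | h | h
  · exfalso
    have h' : (q : ℤ) + 1 ≤ r := by exact_mod_cast h
    have h0 : (0 : ℤ) ≤ q := Int.natCast_nonneg q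
    nlinarith
  · exact h
  · exfalso
    have h' : (r : ℤ) + 1 ≤ q := by exact_mod_cast h
    have h0 : (0 : ℤ) ≤ r := Int.natCast_nonneg r
    nlinarith

theorem dq_eq {v : ℤ} {q : ℕ} (hq : |v - ((q : ℤ) + 1) ^ 2| ≤ (q : ℤ)) : dq v = q := by
  unfold dq
  have h : ∃ q : ℕ, |v - ((q : ℤ) + 1) ^ 2| ≤ (q : ℤ) := ⟨q, hq⟩
  rw [dif_pos h]
  exact dq_unique h.choose_spec hq

/-- The list coded by an integer. -/
noncomputable def lst (v : ℤ) : List ℕ :=
  ((Encodable.decode (Nat.unpair (dq v)).1 : Option (List ℕ))).getD []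

theorem lst_eq (w : ℕ → ℕ) {n i : ℕ} (h : n ≤ i) : lst (base w i + sq w n i) = pre w (i + 1) := by
  have h1 : dq (base w i + sq w n i) = cod w i := by
    apply dq_eq
    have : base w i + sq w n i - ((cod w i : ℤ) + 1) ^ 2 = sq w n i := by
      unfold base; ring
    rw [this]
    exact abs_sq_le w h
  unfold lst
  rw [h1]
  unfold cod
  rw [Nat.unpair_pair]
  simp [Encodable.encodek]

/-- The element of the Baire space which is recovered from the coordinates of `a`. -/
noncomputable def dec (a : ℕ → ℤ) : ℕ → ℕ := fun k =>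
  liminf (fun i => (lst (a i)).getD (i - k) 0) atTop

theorem dec_congr {a b : ℕ → ℤ} (h : ∀ᶠ i in atTop, a i = b i) : dec a = dec b := by
  funext k
  unfold dec
  apply liminf_congr
  filter_upwards [h] with i hi
  rw [hi]

theorem dec_eq (w : ℕ → ℕ) (n : ℕ) : dec (base w + sq w n) = w := by
  funext k
  unfold dec
  have : ∀ᶠ i in atTop, (lst ((base w + sq w n) i)).getD (i - k) 0 = w k := by
    filter_upwards [eventually_ge_atTop (max n k)] with i hi
    rw [Pi.add_apply, lst_eq w ((le_max_left _ _).trans hi)]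
    exact pre_getD w ((le_max_right _ _).trans hi)
  rw [liminf_congr this, liminf_const]

theorem measurable_dec : Measurable dec := by
  refine measurable_pi_iff.2 fun k => ?_
  unfold dec
  refine Measurable.liminf fun i => ?_
  exact (measurable_of_countable fun v : ℤ => (lst v).getD (i - k) 0).comp (measurable_pi_apply i)

theorem measurable_sq (n i : ℕ) : Measurable fun w : ℕ → ℕ => sq w n i :=
  (measurable_of_countable fun v : ℕ => (Equiv.intEquivNat.symm v : ℤ)).comp (measurable_pi_apply _)

theorem measurable_bd (i : ℕ) : Measurable fun w : ℕ → ℕ => bd w i := by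
  unfold bd
  refine Finset.measurable_sum _ fun n _ => ?_
  exact (measurable_of_countable fun v : ℤ => v.natAbs).comp (measurable_sq n i)

theorem measurable_base : Measurable base := by
  refine measurable_pi_iff.2 fun i => ?_
  have h1 : Measurable fun w : ℕ → ℕ => (Encodable.encode (pre w (i + 1)) : ℕ) := by
    refine measurable_to_countable' fun c => ?_
    have : (fun w : ℕ → ℕ => (Encodable.encode (pre w (i + 1)) : ℕ)) ⁻¹' {c} =
        ⋃ ρ : List ℕ, ⋃ _ : Encodable.encode ρ = c, {w : ℕ → ℕ | pre w (i + 1) = ρ} := by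
      ext w
      simp
    rw [this]
    exact MeasurableSet.iUnion fun ρ => MeasurableSet.iUnion fun _ => measurableSet_pre _ _
  have h2 : Measurable fun w : ℕ → ℕ => (Encodable.encode (pre w (i + 1)), bd w i) :=
    h1.prodMk (measurable_bd i)
  exact (measurable_of_countable fun p : ℕ × ℕ => (((Nat.pair p.1 p.2 : ℕ) : ℤ) + 1) ^ 2).comp h2

theorem measurable_point (n : ℕ) : Measurable fun w : ℕ → ℕ => base w + sq w n :=
  measurable_base.add (measurable_pi_iff.2 fun i => measurable_sq n i)

/-- Preimages of analytic sets under measurable maps of Polish spaces are analytic. -/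
theorem analytic_preimage {f : (ℕ → ℤ) → (ℕ → ℕ)} (hf : Measurable f) {S : Set (ℕ → ℕ)}
    (hS : AnalyticSet S) : AnalyticSet (f ⁻¹' S) := by
  obtain ⟨t', ht', hc, hp⟩ := hf.exists_continuous
  have h1 : @AnalyticSet _ t' (f ⁻¹' S) := @AnalyticSet.preimage _ _ t' _ hp _ _ hS _ hc
  have h2 := @AnalyticSet.image_of_continuous _ t' _ (Pi.topologicalSpace) _ h1 id
    (continuous_id_of_le ht')
  rwa [image_id] at h2

/-- The coanalytic set. -/
def setA : Set (ℕ → ℤ) := {a | ∃ n, a = base (dec a) + sq (dec a) n ∧ Star (InT (dec a)) n}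

theorem mem_setA {w : ℕ → ℕ} {n : ℕ} (h : Star (InT w) n) : base w + sq w n ∈ setA := by
  refine ⟨n, ?_, ?_⟩
  · rw [dec_eq]
  · rw [dec_eq]; exact h

theorem coanalytic_setA : AnalyticSet setAᶜ := by
  have h : setAᶜ = ⋂ n, ({a | a = base (dec a) + sq (dec a) n}ᶜ ∪
      dec ⁻¹' {w | ¬ Star (InT w) n}) := by
    ext a
    simp only [setA, mem_compl_iff, mem_ofPred_eq, mem_iInter, mem_union, mem_preimage, not_exists,
      not_and]
    constructor
    · intro h n
      exact or_iff_not_imp_left.2 fun h1 => h n (not_not.1 h1)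
    · intro h n h1
      exact (h n).resolve_left (not_not.2 h1)
  rw [h]
  refine AnalyticSet.iInter fun n => analytic_union ?_ ?_
  · refine MeasurableSet.analyticSet (MeasurableSet.compl ?_)
    exact measurableSet_eq_fun measurable_id ((measurable_point n).comp measurable_dec)
  · exact analytic_preimage measurable_dec (analytic_not_star n)

/-- The null-sequence of the unit vectors. -/
def unit (n : ℕ) : ℕ → ℤ := Pi.single n 1

theorem tendsto_unit : Tendsto unit atTop (𝓝 0) := by
  rw [tendsto_pi_nhds]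
  intro i
  refine tendsto_const_nhds.congr' ?_
  filter_upwards [eventually_gt_atTop i] with n hn
  unfold unit
  rw [Pi.single_eq_of_ne hn.ne]
  rfl

theorem nullFinite_setA : NullFinite setA := by
  refine ⟨unit, tendsto_unit, fun x => Set.Subsingleton.finite ?_⟩
  intro n hn m hm
  have hd : dec (x + unit n) = dec (x + unit m) := by
    apply dec_congr
    filter_upwards [eventually_gt_atTop (max n m)] with i hi
    have h1 : n < i := (le_max_left _ _).trans_lt hi
    have h2 : m < i := (le_max_right _ _).trans_lt hi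
    simp only [Pi.add_apply, unit, Pi.single_eq_of_ne h1.ne', Pi.single_eq_of_ne h2.ne']
  obtain ⟨k, hk1, hk2⟩ := hn
  obtain ⟨l, hl1, hl2⟩ := hm
  rw [hd] at hk1 hk2
  have hkl : k = l := star_unique (fun _ => trivial) (fun n a τ h => inT_tail _ n a τ h) hk2 hl2
  rw [hkl, ← hl1] at hk1
  have h1 : unit n = unit m := add_left_cancel hk1
  by_contra hne
  have h2 := congrFun h1 n
  unfold unit at h2
  rw [Pi.single_eq_same, Pi.single_eq_of_ne hne] at h2
  exact one_ne_zero h2

/-- For every Borel set which contains `setA` and every sequence `s` there is `x` such that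
`x + s n` is in `B` for infinitely many `n`. -/
theorem infinite_hull {B : Set (ℕ → ℤ)} (hB : MeasurableSet B) (hAB : setA ⊆ B)
    (s : ℕ → ℕ → ℤ) : ∃ x, {n | x + s n ∈ B}.Infinite := by
  by_contra hcon
  push Not at hcon
  have hfin : ∀ x, {n | x + s n ∈ B}.Finite := fun x => by
    simpa using hcon x
  let G : ℕ → Set (ℕ → ℕ) := fun n => {w | ∀ m, n ≤ m → base w + s m ∉ B}
  have hG : ∀ n, AnalyticSet (G n)ᶜ := by
    intro n
    refine MeasurableSet.analyticSet (MeasurableSet.compl ?_)
    have : G n = ⋂ m, ⋂ _ : n ≤ m, (fun w : ℕ → ℕ => base w + s m) ⁻¹' Bᶜ := by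
      ext w
      simp [G]
    rw [this]
    refine MeasurableSet.iInter fun m => MeasurableSet.iInter fun _ => ?_
    exact (measurable_base.add_const (s m)) hB.compl
  choose c hc using fun n => exists_cd (hG n)
  obtain ⟨w, hw1, hw2⟩ := exists_code s c
  have hiff : ∀ n, Acc (rel (InT w n)) [] ↔ w ∈ G n := by
    intro n
    rw [acc_iff (P := InT w n) trivial, hc n w]
    constructor
    · intro h y
      by_contra hc'
      push Not at hc'
      exact h ⟨y, (inT_pre w n y).2 fun k => by rw [hw2]; exact hc' k⟩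
    · rintro h ⟨y, hy⟩
      obtain ⟨k, hk⟩ := h y
      exact (inT_pre w n y).1 hy k ((hw2 _ _ _).2 hk)
  obtain ⟨n, hn⟩ : ∃ n, w ∈ G n := by
    obtain ⟨N, hN⟩ := (hfin (base w)).bddAbove
    exact ⟨N + 1, fun m hm hmem => by
      have := hN hmem
      omega⟩
  obtain ⟨k, hk⟩ := exists_star (P := InT w) (fun _ => trivial) ⟨n, (hiff n).2 hn⟩
  have h1 : base w + sq w k ∈ B := hAB (mem_setA hk)
  have h2 : w ∈ G k := (hiff k).1 hk.1
  rw [hw1] at h1
  exact h2 k le_rfl h1

/-- In the Polish group `ℤ^ℕ` there is a coanalytic null-finite set `A` which is contained in no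
Borel null-finite set. Moreover, if `B` is a Borel set containing `A`, then for every sequence `s`
(tending to `0` or not) there is `x` such that `x + s n ∈ B` for infinitely many `n`. -/
theorem result :
    IsTopologicalAddGroup (ℕ → ℤ) ∧ PolishSpace (ℕ → ℤ) ∧
    ∃ A : Set (ℕ → ℤ), AnalyticSet Aᶜ ∧ NullFinite A ∧
      (∀ B : Set (ℕ → ℤ), @MeasurableSet (ℕ → ℤ) (borel (ℕ → ℤ)) B → A ⊆ B → ¬ NullFinite B) ∧
      ∀ B : Set (ℕ → ℤ), @MeasurableSet (ℕ → ℤ) (borel (ℕ → ℤ)) B → A ⊆ B →
        ∀ s : ℕ → ℕ → ℤ, ∃ x, {n | x + s n ∈ B}.Infinite := by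
  have hb : ∀ B : Set (ℕ → ℤ), @MeasurableSet (ℕ → ℤ) (borel (ℕ → ℤ)) B → MeasurableSet B := by
    intro B hB
    rw [← BorelSpace.measurable_eq (α := ℕ → ℤ)] at hB
    exact hB
  refine ⟨inferInstance, inferInstance, setA, coanalytic_setA, nullFinite_setA, ?_, ?_⟩
  · rintro B hB hAB ⟨s, _, hs⟩
    obtain ⟨x, hx⟩ := infinite_hull (hb B hB) hAB s
    exact hx (hs x)
  · intro B hB hAB s
    exact infinite_hull (hb B hB) hAB s

end Pool.Agent.Results.MP_ceb5ee_gt.CoanalyticHull
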